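import Pool.Agent.helper43.RLS.LA
import Pool.Agent.helper12.RLS.BU
import Pool.Agent.helper36.RLS.SI
import Pool.Agent.helper79.RLS.CT
import Pool.Agent.helper28.RLS.PS
import Pool.Agent.helper24.RLS.GI
import Pool.Agent.helper9.RLS.DX
import Pool.Agent.helper92.RLS.DE
import Pool.Agent.helper29.RLS.DQ
import Pool.Agent.helper85.RLS.DM
import Pool.Agent.helper30.RLS.DP
import Pool.Agent.helper32.RLS.ME
import Pool.Agent.helper84.RLS.MG
import Pool.Agent.helper74.RLS.CA
import Pool.Agent.helper55.RLS.CB
import Pool.Agent.helper33.RLS.CP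
import Pool.Agent.helper3.RLS.GEN
import Pool.Agent.helper18.RLS.FIN

/-!
# The linear sieve (Rosser beta = 2), assembled: closed theorems

`GEN_all`: the main terms of Rosser's weights with the true functions `F`, `f` of the linear sieve. `FIN_all`: weights in the
usual form with the cutting (well factorable) property. Definitions and proofs: `Pool/Agent/helper31/RLS/Spec.lean`.
-/

set_option autoImplicit false

namespace Pool.Agent.RLS

theorem LA_all : LA_stmt := LA

theorem BU_all : BU_stmt := BU LA_all

theorem SI_all : SI_stmt := SI BU_all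

theorem CT_all : CT_stmt := CT LA_all

theorem PS_all : PS_stmt := PS

theorem GI_all : GI_stmt := GI

theorem DX_all : DX_stmt := DX

theorem DE_all : DE_stmt := DE

theorem DQ_all : DQ_stmt := DQ DE_all

theorem DM_all : DM_stmt := DM DE_all DQ_all

theorem DP_all : DP_stmt := DP DX_all DE_all DQ_all DM_all

theorem ME_all : ME_stmt := ME

theorem MG_all : MG_stmt := MG ME_all

theorem CA_all : CA_stmt := CA BU_all PS_all GI_all

theorem CB_all : CB_stmt := CB BU_all PS_all GI_all

theorem CP_all : CP_stmt := CP CA_all CB_all GI_all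

theorem GEN_all : GEN_stmt := GEN CP_all MG_all GI_all

theorem FIN_all : FIN_stmt := FIN DP_all GEN_all LA_all SI_all CT_all

end Pool.Agent.RLS
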