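import Mathlib

/-!
# The linear sieve (Rosser's weights, beta = 2) by comparison: definitions and rows

THEOREM (GEN, FIN).  Let `u ≥ 4`.  There are `A` in `[3, 4]` and functions `F ≥ 1 ≥ f` on `[1, u]`, `F s = A / s` for
`s ≤ 3`, `f s = A log (s - 1) / s` for `2 ≤ s ≤ 4`, such that for Rosser's weights of level `D ≤ w ^ u` on the primes
`w < p ≤ z` the main terms are `≤ (log w / log z) (F s + ε)` resp. `≥ (log w / log z) (f s - ε)`, `s = log D / log z`,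
for `w ≥ w₀ (u, ε)`.

IDEA.  Rosser's recursion `S⁺(L, P) = 1 - ∑_{3 log p < L} g(p) S⁻(L - log p, P_{<p})`,
`S⁻(L, P) = 1 - ∑ g(p) S⁺(L - log p, P_{<p})` is monotone, so it can be compared with any pair of functions with
`(s F)' = f(s-1)`, `(s f)' = F(s-1)` and `F ≥ 1 ≥ f` on `(0, u]`.  Such a pair: the solution with `s F = 1` for
`s ≤ 3`, `f = 0` for `s ≤ 2`, divided by `F(u)`.

RULES.  Row `XX`: file `Pool/Agent/<seat>/RLS/XX.lean`, `import Pool.Agent.helper31.RLS.Spec`,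
`namespace Pool.Agent.RLS`, `theorem XX (h1 : YY_stmt) ... : XX_stmt` (only the statements named after `From`),
auxiliary lemmas prefixed `XX_`.  No `convert`, no `congr!`, no straight double quotes.
-/

set_option autoImplicit false

namespace Pool.Agent.RLS

open Finset

/-! ## Definitions -/

/-- Rosser's weights (`true`: upper, `false`: lower) of level `exp L` on decreasing lists of primes:
`(-1) ^ r` if `p_1 ... p_(m-1) p_m ^ 3 < exp L` for all odd (upper) resp. even (lower) `m ≤ r`, otherwise `0`. -/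
noncomputable def lamL : Bool → ℝ → List ℕ → ℝ
  | _, _, [] => 1
  | true, L, p :: l => if 3 * Real.log p < L then -lamL false (L - Real.log p) l else 0
  | false, L, p :: l => -lamL true (L - Real.log p) l

/-- Rosser's weights on finite sets of primes. -/
noncomputable def lam (b : Bool) (L : ℝ) (K : Finset ℕ) : ℝ := lamL b L (K.sort (· ≥ ·))

/-- the product `∏ (1 - g p)` -/
noncomputable def VV (g : ℕ → ℝ) (P : Finset ℕ) : ℝ := ∏ p ∈ P, (1 - g p)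

/-- the main term `∑_{K ⊆ P} λ(K) g(K)` -/
noncomputable def SS (b : Bool) (g : ℕ → ℝ) (L : ℝ) (P : Finset ℕ) : ℝ :=
  ∑ K ∈ P.powerset, lam b L K * ∏ p ∈ K, g p

/-- the elements of `P` below `p` -/
def bel (P : Finset ℕ) (p : ℕ) : Finset ℕ := P.filter (· < p)

/-- `P` is a set of primes with logarithms in `[om, y]`, and `∏ (1 - g p)` over the `p` in `P` with `log p < t` (resp.
over `P`) is `om / t` (resp. `om / y`) up to `et`. -/
structure Good (g : ℕ → ℝ) (om et y : ℝ) (P : Finset ℕ) : Prop where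
  rng : ∀ p ∈ P, om ≤ Real.log p ∧ Real.log p ≤ y
  g01 : ∀ p ∈ P, 0 ≤ g p ∧ g p < 1
  opn : ∀ t, om ≤ t → t ≤ y → |VV g (P.filter fun p : ℕ => Real.log p < t) - om / t| ≤ et
  tot : |VV g P - om / y| ≤ et

/-- The delay differential equations, in integrated form: `G = s F`, `H = s f`, normalised by `G = 1` for `s ≤ 3`. -/
structure DDE (u : ℝ) (G H : ℝ → ℝ) : Prop where
  cG : Continuous G
  cH : Continuous H
  g3 : ∀ s, s ≤ 3 → G s = 1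
  h2 : ∀ s, s ≤ 2 → H s = 0
  g1 : ∀ s, 1 ≤ G s
  h0 : ∀ s, 0 ≤ H s
  gi : ∀ s, 3 ≤ s → s ≤ u → G s = 1 + ∫ t in (3 : ℝ)..s, H (t - 1) / (t - 1)
  hi : ∀ s, 2 ≤ s → s ≤ u → H s = ∫ t in (2 : ℝ)..s, G (t - 1) / (t - 1)

/-- The pair `F`, `f` on `[1, u]`. -/
structure Dat (u A : ℝ) (F f : ℝ → ℝ) : Prop where
  A3 : 3 ≤ A
  A4 : A ≤ 4
  Fs : ∀ s, 1 ≤ s → s ≤ 3 → F s = A / s
  fs : ∀ s, 2 ≤ s → s ≤ 4 → f s = A * Real.log (s - 1) / s
  Fa : AntitoneOn F (Set.Icc 1 u)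
  fm : MonotoneOn f (Set.Icc 2 u)
  F1 : ∀ s, 1 ≤ s → s ≤ u → 1 ≤ F s
  f1 : ∀ s, 2 ≤ s → s ≤ u → 0 ≤ f s ∧ f s ≤ 1
  Fi : ∀ a b, 3 ≤ a → a ≤ b → b ≤ u → b * F b - a * F a = ∫ s in a..b, f (s - 1)
  fi : ∀ a b, 2 ≤ a → a ≤ b → b ≤ u → b * f b - a * f a = ∫ s in a..b, F (s - 1)

/-- the primes `w < p ≤ z` -/
noncomputable def PP (w z : ℝ) : Finset ℕ :=
  (range (⌊z⌋₊ + 1)).filter fun p : ℕ => p.Prime ∧ w < (p : ℝ)

/-- `K` can be cut in two parts with products `≤ R` and `≤ S` whenever `R S = D`. -/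
def Cut (D : ℝ) (K : Finset ℕ) : Prop := ∀ R S : ℝ, 1 ≤ R → 1 ≤ S → R * S = D →
  ∃ K₁ ⊆ K, ∏ p ∈ K₁, (p : ℝ) ≤ R ∧ ∏ p ∈ K \ K₁, (p : ℝ) ≤ S

/-! ## Part A: combinatorics of the weights -/

/-- **LA** (short). `sort_insert` (for `· ≥ ·`) gives `(insert p K).sort = p :: K.sort` if `p` is larger than all elements of
`K`; `|lam| ≤ 1` by induction on the list. -/
def LA_stmt : Prop :=
  (∀ (b : Bool) (L : ℝ), lam b L ∅ = 1) ∧
  (∀ (L : ℝ) (K : Finset ℕ) (p : ℕ), (∀ q ∈ K, q < p) →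
    lam true L (insert p K) = if 3 * Real.log p < L then -lam false (L - Real.log p) K else 0) ∧
  (∀ (L : ℝ) (K : Finset ℕ) (p : ℕ), (∀ q ∈ K, q < p) →
    lam false L (insert p K) = -lam true (L - Real.log p) K) ∧
  ∀ (b : Bool) (L : ℝ) (K : Finset ℕ), |lam b L K| ≤ 1

/-- **BU** (Buchstab's identity; medium, short). From LA. The nonempty `K ⊆ P` are the `insert p K'` with `p ∈ P`,
`K' ⊆ bel P p`, uniquely (`p = max K`). Or by induction on `P` with `Finset.induction_on_max`: for `p` larger than all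
elements of `P`: `powerset (insert p P) = powerset P ∪ image (insert p)`, `bel (insert p P) p = P`,
`bel (insert p P) q = bel P q` for `q ∈ P`. -/
def BU_stmt : Prop := ∀ (g : ℕ → ℝ) (L : ℝ) (P : Finset ℕ),
  SS true g L P = 1 - ∑ p ∈ P.filter (fun p : ℕ => 3 * Real.log p < L),
    g p * SS false g (L - Real.log p) (bel P p) ∧
  SS false g L P = 1 - ∑ p ∈ P, g p * SS true g (L - Real.log p) (bel P p)

/-- **SI** (the sieve inequalities; short). From BU (with `g = 1`: `SS b 1 L T = ∑_{K ⊆ T} lam b L K`). Induction on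
`#T`: if `T ≠ ∅`, the least element is the only `p ∈ T` with `bel T p = ∅`; so
`∑_{3 log p < L} SS false (..) (bel T p) ≤ 1` and `∑ SS true (..) (bel T p) ≥ 1`. -/
def SI_stmt : Prop := ∀ (L : ℝ) (T : Finset ℕ),
  (0 ≤ ∑ K ∈ T.powerset, lam true L K) ∧ (T = ∅ → 1 ≤ ∑ K ∈ T.powerset, lam true L K) ∧
  ∑ K ∈ T.powerset, lam false L K ≤ if T = ∅ then 1 else 0

/-- **CT** (cutting; short, medium). From LA. Induction on `K` with `Finset.induction_on_max`, for all `b`, `L`, `al`, `be`.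
`K = insert p K'`: `2 log p ≤ L` in both cases (upper: `3 log p < L`), and for `q ∈ K'` in the upper case
`2 log q ≤ 2 log p ≤ L - log p`, so the hypothesis for the lower weights of `K'` with `L - log p` holds. As
`2 log p ≤ al + be`, `log p ≤ al` or `log p ≤ be`; the induction hypothesis for `(al - log p, be)` or `(al, be - log p)`. -/
def CT_stmt : Prop := ∀ (b : Bool) (L al be : ℝ) (K : Finset ℕ), (∀ p ∈ K, 1 ≤ p) → lam b L K ≠ 0 →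
  (b = false → ∀ p ∈ K, 2 * Real.log p ≤ L) → 0 ≤ al → 0 ≤ be → al + be = L →
  ∃ K₁ ⊆ K, ∑ p ∈ K₁, Real.log p ≤ al ∧ ∑ p ∈ K \ K₁, Real.log p ≤ be

/-! ## Part B: partial summation -/

/-- **PS** (medium). `T(σ) = ∑_{x p > σ} c p`, `Tot = ∑ c`. Monotone case: by induction on `#P`, for all `a`, show
`J(P, a) = ∑ c ψ(x) - ka ∫_a^b ψ - ψ(a) (Tot - ka (b - a)) + et (ψ(b) - ψ(a)) ≥ 0`. `P = ∅`: `∫_a^b ψ ≤ (b - a) ψ(b)`
and `ka (b - a) ≤ et`. Otherwise let `p₀` have the least `x p₀ = x₀`, `P' = P \ {p₀}`; all `x p > x₀` in `P'` (injective),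
so `Tot(P') = T(x₀)`, `T'(σ) = T(σ)` for `σ ≥ x₀`, and `J(P', x₀) ≥ 0`. Since `∫_a^(x₀) ψ ≤ (x₀ - a) ψ(x₀)`:
`J(P, a) - J(P', x₀) ≥ (ψ(x₀) - ψ(a)) (Tot - ka (b - a) + et) ≥ 0`. Then
`∑ c ψ(x) ≥ ka ∫ ψ - et ψ(a) - et (ψ(b) - ψ(a))`. Antitone case: the monotone case for `ψ(a) - ψ`. (Monotone functions
are interval integrable: `MonotoneOn.intervalIntegrable`, `AntitoneOn.intervalIntegrable`.) -/
def PS_stmt : Prop := ∀ (P : Finset ℕ) (c x : ℕ → ℝ) (a b ka et : ℝ) (ψ : ℝ → ℝ), a ≤ b → 0 ≤ ka →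
  0 ≤ et → Set.InjOn x P → (∀ p ∈ P, 0 ≤ c p ∧ a ≤ x p ∧ x p ≤ b) →
  (∀ σ, a ≤ σ → σ ≤ b → |∑ p ∈ P.filter (fun p => σ < x p), c p - ka * (b - σ)| ≤ et) →
  |∑ p ∈ P, c p - ka * (b - a)| ≤ et → (∀ s ∈ Set.Icc a b, 0 ≤ ψ s) →
  (MonotoneOn ψ (Set.Icc a b) →
    ka * (∫ s in a..b, ψ s) - et * ψ b ≤ ∑ p ∈ P, c p * ψ (x p)) ∧
  (AntitoneOn ψ (Set.Icc a b) →
    ∑ p ∈ P, c p * ψ (x p) ≤ ka * (∫ s in a..b, ψ s) + 2 * et * ψ a)

/-- **GI** (short). (1) `p ≥ 2` for `p ∈ P` as `log p ≥ om > 0`, so for `q, p ∈ P`: `q < p ↔ log q < log p`, and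
`bel P p = P.filter (log · < log p)`. (2) `Finset.prod_one_sub_ordered`. (3) `1 - x ≤ exp (-x)`, and
`VV g P ≥ om / y - et ≥ om / (2 y)`. (4) the elements with `log p < t`. -/
def GI_stmt : Prop := ∀ (g : ℕ → ℝ) (om et y : ℝ) (P : Finset ℕ), 0 < om → om ≤ y → Good g om et y P →
  (∀ p ∈ P, Good g om et (Real.log p) (bel P p)) ∧
  (∑ p ∈ P, g p * VV g (bel P p) = 1 - VV g P) ∧
  (et ≤ om / (2 * y) → ∑ p ∈ P, g p ≤ Real.log (2 * y / om)) ∧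
  ∀ t, ∑ p ∈ P.filter (fun p : ℕ => Real.log p < t), g p * VV g (bel P p) =
    1 - VV g (P.filter fun p : ℕ => Real.log p < t)

/-! ## Part C: the functions -/

/-- **DX** (existence; medium). `G_0 = 1`, `H_0 = 0`, `G_(n+1)(s) = 1 + ∫_3^(max s 3) H_n(t-1) / max (t-1) 1`,
`H_(n+1)(s) = ∫_2^(max s 2) G_n(t-1) / max (t-1) 1` (the integrands are continuous, so everything is continuous;
`intervalIntegral.continuous_primitive` or differentiability). By induction `G_n ≥ 1`, `H_n ≥ 0`, and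
`G_(n+1) = G_n`, `H_(n+1) = H_n` on `(-∞, n + 2]`. Take `G = G_n`, `H = H_n` with `n ≥ u`. -/
def DX_stmt : Prop := ∀ u : ℝ, 4 ≤ u → ∃ G H : ℝ → ℝ, DDE u G H

/-- **DE** (the first values; short). `hi` with `G = 1` on `(-∞, 3]`. And derivatives: FTC. -/
def DE_stmt : Prop := ∀ (u : ℝ) (G H : ℝ → ℝ), 4 ≤ u → DDE u G H →
  (∀ s, 2 ≤ s → s ≤ 4 → H s = Real.log (s - 1)) ∧
  (∀ s, 3 < s → s < u → HasDerivAt G (H (s - 1) / (s - 1)) s) ∧
  (∀ s, 2 < s → s < u → HasDerivAt H (G (s - 1) / (s - 1)) s)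

/-- **DQ** (`H < G`; medium). From DE. `q = G - H`. On `[2, 3]`: `q = 1 - log (s - 1) ≥ 1 - log 2 > 0`. For
`3 ≤ s ≤ u`: `(s - 1) q(s) = ∫_(s-1)^s q`: at `s = 3` both sides are `2 - 2 log 2`; the derivatives on `(3, u)` are
`q(s) + (s - 1) q'(s) = q(s) - q(s - 1)` as `q'(s) = - q(s - 1) / (s - 1)`. If `q` has a zero or a negative value on
`[3, u]`, let `s₀` be the least `s ≥ 3` with `q(s) ≤ 0` (closed set); `s₀ > 3`, `q > 0` on `[s₀ - 1, s₀)`, so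
`(s₀ - 1) q(s₀) = ∫ q > 0`, a contradiction. -/
def DQ_stmt : Prop := ∀ (u : ℝ) (G H : ℝ → ℝ), 4 ≤ u → DDE u G H → ∀ s, 2 ≤ s → s ≤ u → H s < G s

/-- **DM** (monotonicity; medium). From DE, DQ. `F = G/s`, `f = H/s`. `s F'(s) = f(s-1) - F(s)` for `s > 3`,
`s f'(s) = F(s-1) - f(s)` for `s > 2`. On `[1, 3]` `F = 1/s` decreases. On `[2, 3]` `f = log (s-1)/s` increases:
`s/(s-1) ≥ 3/2 > log 2`. Let `φ(s) = F(s) - f(s-1)`, `ψ(s) = F(s-1) - f(s)`, continuous on `[3, u]`, positive at `3`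
(`1/3`, `1/2 - (log 2)/3`). Suppose `min φ ψ ≤ 0` somewhere on `[3, u]` and let `s₁` be the least such point. On
`(3, s₁)` `F' < 0`, `f' > 0`, so `F` is antitone and `f` monotone on `[2, s₁]`, and
`φ(s₁) ≥ F(s₁) - f(s₁) > 0`, `ψ(s₁) ≥ F(s₁) - f(s₁) > 0` by DQ: contradiction. So `F' < 0`, `f' > 0` on `(3, u)`. -/
def DM_stmt : Prop := ∀ (u : ℝ) (G H : ℝ → ℝ), 4 ≤ u → DDE u G H →
  AntitoneOn (fun s => G s / s) (Set.Icc 1 u) ∧ MonotoneOn (fun s => H s / s) (Set.Icc 2 u)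

/-- **DP** (short). From DX, DE, DQ, DM. `A = u / G u`, `F s = A G s / s`, `f s = A H s / s`. `F ≥ F u = 1`; `f ≤ f u < F u = 1`.
`A / 3 = F 3 ≥ 1`; `A log 3 / 4 = f 4 ≤ 1` and `log 3 ≥ 1`. `Fi`, `fi`: differences of `gi`, `hi`. -/
def DP_stmt : Prop := ∀ u : ℝ, 4 ≤ u → ∃ (A : ℝ) (F f : ℝ → ℝ), Dat u A F f

/-! ## Part D: comparison -/

/-- **CA** (the step of the upper bound; medium). From BU, PS, GI. `V_p = VV g (bel P p)`, `ka = om / L`, `b = L / om ≤ u`.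
If `L < 3 om` then no `p ∈ P` has `3 log p < L`, `SS = 1 ≤ A / 3 ≤ (om / y) F(L / y) = om A / L` (as `L / y ≤ 3`).
Let `3 om ≤ L`, `P' = P.filter (3 log p < L)`, `a = max (L / y) 3`. For `p ∈ P'` the hypothesis and
`|V_p - om / log p| ≤ et` (Good for `bel P p`), `0 ≤ f ≤ 1` give `SS false (..) ≥ V_p f(L / log p - 1) - et - e`
(`(L - log p) / log p = L / log p - 1 ≥ 2`). PS for `P'`, `c p = g p V_p`, `x p = L / log p`, `ψ s = f (s - 1)` on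
`[a, b]` (`σ < x p ↔ log p < L / σ`; the sums of `c` are `1 - VV g (..)` by GI, `om / (L / σ) = ka σ`, `1 = ka b`; for
the total: `P' = P` if `y < L / 3`, otherwise `P' = P.filter (log p < L / 3)`):
`∑ c p ψ(x p) ≥ ka ∫_a^b f(s-1) - et f(b - 1) ≥ ka (b F(b) - a F(a)) - et ≥ 1 - ka a F(a) - et`. And
`ka a F(a) = (om / y) F(L / y)` (`a = L / y`, or `a = 3`: both are `ka A`). -/
def CA_stmt : Prop := ∀ (u A : ℝ) (F f : ℝ → ℝ), 4 ≤ u → Dat u A F f → ∀ (g : ℕ → ℝ) (om et e y L : ℝ)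
  (P : Finset ℕ), 0 < om → 0 ≤ et → 0 ≤ e → om ≤ y → y ≤ L → L ≤ u * om → Good g om et y P →
  (∀ p ∈ P, 3 * Real.log p < L → om / Real.log p * f ((L - Real.log p) / Real.log p) - e ≤
    SS false g (L - Real.log p) (bel P p)) →
  SS true g L P ≤ om / y * F (L / y) + et + (et + e) * ∑ p ∈ P, g p

/-- **CB** (the step of the lower bound; medium). From BU, PS, GI. As CA: `a = L / y ≥ 2`, `P' = P`, `ψ s = F (s - 1)` is
antitone on `[a, b]`, `1 ≤ F ≤ A ≤ 4` on `[1, u]`: `SS true (..) ≤ V_p F(L / log p - 1) + 4 et + e`, and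
`∑ c p ψ(x p) ≤ ka ∫_a^b F(s-1) + 2 et F(a - 1) ≤ ka (b f(b) - a f(a)) + 8 et ≤ 1 - (om / y) f(L / y) + 8 et`. -/
def CB_stmt : Prop := ∀ (u A : ℝ) (F f : ℝ → ℝ), 4 ≤ u → Dat u A F f → ∀ (g : ℕ → ℝ) (om et e y L : ℝ)
  (P : Finset ℕ), 0 < om → 0 ≤ et → 0 ≤ e → om ≤ y → 2 * y ≤ L → L ≤ u * om → Good g om et y P →
  (∀ p ∈ P, SS true g (L - Real.log p) (bel P p) ≤
    om / Real.log p * F ((L - Real.log p) / Real.log p) + e) →
  om / y * f (L / y) - 8 * et - (4 * et + e) * ∑ p ∈ P, g p ≤ SS false g L P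

/-- **CP** (short, medium). From CA, CB, GI. By induction on `n`: both inequalities with the error
`12 et (1 + B) ^ (n + 1)` for all `L < (n + 1) om`, all `y`, `P` (with `L ≤ u om`, Good, `∑ g ≤ B`). `n = 0`: `y ≤ L < om ≤ y` is
impossible. Step (`L < (n + 2) om`): `log p ≥ om`, so `L - log p < (n + 1) om`; `bel P p` is Good with `y = log p` (GI) and
its sum of `g` is `≤ B`; for `3 log p < L`: `2 log p ≤ L - log p`, and for `log p ≤ y`, `2 y ≤ L`: `log p ≤ L - log p`. With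
`e = 12 et (1 + B) ^ (n + 1)`: `et + (et + e) B ≤ e (1 + B)` and `8 et + (4 et + e) B ≤ e (1 + B)`. Take `n = ⌊u⌋₊`. -/
def CP_stmt : Prop := ∀ (u A : ℝ) (F f : ℝ → ℝ), 4 ≤ u → Dat u A F f → ∀ B : ℝ, 0 ≤ B → ∃ C : ℝ, 0 < C ∧
  ∀ (g : ℕ → ℝ) (om et y L : ℝ) (P : Finset ℕ), 0 < om → 0 ≤ et → om ≤ y → L ≤ u * om →
  Good g om et y P → ∑ p ∈ P, g p ≤ B →
  (y ≤ L → SS true g L P ≤ om / y * F (L / y) + C * et) ∧
  (2 * y ≤ L → om / y * f (L / y) - C * et ≤ SS false g L P)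

/-! ## Part E: primes -/

/-- **ME** (Mertens; medium). Lower bound for `∑_{w < p ≤ z} 1/p`: `Pool.Agent.helper22.PD.mertens_second`
(Pool/Agent/helper22/PD/Mertens2.lean; `k = ⌊w⌋`, `n = ⌊z⌋`). Upper bound: row MER of project CH (statement in
Pool/Agent/helper17/CH/SpecQ.lean, proof: look for CH/MER.lean) or SG of CHS or SIG of SX. So
`|∑ 1/p - log (log z / log w)| ≤ C / log w`, and `∑ (-log (1 - 1/p) - 1/p) ≤ ∑_{n > w} 1 / (n (n-1)) ≤ 2 / w`; so the product is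
`(log w / log z) exp (O(1 / log w))` and `log w / log z ≤ 1`. (For small `w` increase `C`.) -/
def ME_stmt : Prop := ∃ C : ℝ, 0 < C ∧ ∀ w z : ℝ, 2 ≤ w → w ≤ z →
  |VV (fun p : ℕ => 1 / (p : ℝ)) (PP w z) - Real.log w / Real.log z| ≤ C / Real.log w

/-- **MG** (short, medium). From ME. `opn`: for `log w ≤ t ≤ log z` the set is `PP w (exp t)` without the possible prime
`exp t > w`, so the product changes by at most `1 / w ≤ 1 / log w`. -/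
def MG_stmt : Prop := ∃ C : ℝ, 0 < C ∧ ∀ w z : ℝ, 2 ≤ w → w ≤ z →
  Good (fun p : ℕ => 1 / (p : ℝ)) (Real.log w) (C / Real.log w) (Real.log z) (PP w z)

/-- **GEN** (short). From CP, MG, GI. `om = log w`, `et = C / log w`, `y = log z`, `L = log D`; `B = log (2 u)` for
`et ≤ 1 / (2 u)` (GI (3), `y ≤ L ≤ u om`). -/
def GEN_stmt : Prop := ∀ (u A : ℝ) (F f : ℝ → ℝ), 4 ≤ u → Dat u A F f → ∀ eps : ℝ, 0 < eps →
  ∃ w₀ : ℝ, 2 ≤ w₀ ∧ ∀ w z D : ℝ, w₀ ≤ w → w ≤ z → D ≤ w ^ u →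
  (z ≤ D → SS true (fun p : ℕ => 1 / (p : ℝ)) (Real.log D) (PP w z) ≤
    Real.log w / Real.log z * (F (Real.log D / Real.log z) + eps)) ∧
  (z ^ 2 ≤ D → Real.log w / Real.log z * (f (Real.log D / Real.log z) - eps) ≤
    SS false (fun p : ℕ => 1 / (p : ℝ)) (Real.log D) (PP w z))

/-- **FIN** (short, medium). From DP, GEN, LA, SI, CT. Weights: `l K = lam b (log D) K` if `K ⊆ PP w z`, `0` otherwise,
`z = D ^ (1/3)` resp. `D ^ (1/4)`; `F 3 = A / 3`, `f 4 = A log 3 / 4`. `Cut`: CT with `al = log R`, `be = log S`. -/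
def FIN_stmt : Prop := ∀ u : ℝ, 4 ≤ u → ∃ A : ℝ, 3 ≤ A ∧ A ≤ 4 ∧ ∀ eps : ℝ, 0 < eps →
  ∃ w₀ : ℝ, 2 ≤ w₀ ∧ ∀ w D : ℝ, w₀ ≤ w → w ^ (4 : ℝ) ≤ D → D ≤ w ^ u →
  (∃ l : Finset ℕ → ℝ, (∀ K, |l K| ≤ 1) ∧ l ∅ = 1 ∧
    (∀ K, l K ≠ 0 → K ⊆ PP w (D ^ (1 / 3 : ℝ)) ∧ Cut D K) ∧
    (∀ T ⊆ PP w (D ^ (1 / 3 : ℝ)), 0 ≤ ∑ K ∈ T.powerset, l K ∧ (T = ∅ → 1 ≤ ∑ K ∈ T.powerset, l K)) ∧
    ∑ K ∈ (PP w (D ^ (1 / 3 : ℝ))).powerset, l K / ∏ p ∈ K, (p : ℝ) ≤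
      A * (Real.log w / Real.log D) * (1 + eps)) ∧
  (∃ l : Finset ℕ → ℝ, (∀ K, |l K| ≤ 1) ∧ l ∅ = 1 ∧
    (∀ K, l K ≠ 0 → K ⊆ PP w (D ^ (1 / 4 : ℝ)) ∧ Cut D K) ∧
    (∀ T ⊆ PP w (D ^ (1 / 4 : ℝ)), ∑ K ∈ T.powerset, l K ≤ if T = ∅ then 1 else 0) ∧
    A * (Real.log w / Real.log D) * (Real.log 3 - eps) ≤
      ∑ K ∈ (PP w (D ^ (1 / 4 : ℝ))).powerset, l K / ∏ p ∈ K, (p : ℝ))

end Pool.Agent.RLS
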